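import Pool.Agent.Helper39.NA.Defs

/-!
# Norms of number fields and places above a place of a subfield
-/

set_option autoImplicit false

open NumberField IsDedekindDomain Polynomial

namespace Pool.Agent.Helper82.NA

open Pool.Agent.Helper39.NA

variable {Q K : Type} [Field Q] [NumberField Q] [Field K] [NumberField K] [Algebra Q K]

/-- an element integral at all places above `p` is a fraction with denominator outside `p` -/
theorem exists_den (p : HeightOneSpectrum (𝓞 Q)) (w : K)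
    (hw : ∀ v : HeightOneSpectrum (𝓞 K), Ab p v → v.valuation K w ≤ 1) :
    ∃ (m : 𝓞 Q) (a : 𝓞 K), m ∉ p.asIdeal ∧
      w * algebraMap (𝓞 K) K (algebraMap (𝓞 Q) (𝓞 K) m) = algebraMap (𝓞 K) K a := by
  classical
  -- the ideal of denominators
  let J : Ideal (𝓞 K) :=
    { carrier := {s | ∃ a : 𝓞 K, w * algebraMap (𝓞 K) K s = algebraMap (𝓞 K) K a}
      add_mem' := by
        rintro s t ⟨a, ha⟩ ⟨b, hb⟩
        exact ⟨a + b, by rw [map_add, map_add, mul_add, ha, hb]⟩
      zero_mem' := ⟨0, by simp⟩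
      smul_mem' := by
        rintro c s ⟨a, ha⟩
        exact ⟨c * a, by
          rw [smul_eq_mul, map_mul, map_mul, ← ha]
          ring⟩ }
  by_cases hJ : J.comap (algebraMap (𝓞 Q) (𝓞 K)) ≤ p.asIdeal
  · exfalso
    have := p.isPrime
    obtain ⟨P, hJP, hP, hPp⟩ :=
      Ideal.exists_ideal_over_prime_of_isIntegral p.asIdeal J hJ
    have hP0 : P ≠ ⊥ := by
      rintro rfl
      obtain ⟨n, hn, hn0⟩ := Submodule.exists_mem_ne_zero_of_ne_bot p.ne_bot
      rw [← hPp] at hn
      rw [Ideal.mem_comap, Ideal.mem_bot] at hn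
      have hinj : Function.Injective (algebraMap (𝓞 Q) (𝓞 K)) :=
        FaithfulSMul.algebraMap_injective _ _
      exact hn0 (hinj (by rw [hn, map_zero]))
    let v : HeightOneSpectrum (𝓞 K) := ⟨P, hP, hP0⟩
    have hv : Ab p v := by
      intro n
      change algebraMap (𝓞 Q) (𝓞 K) n ∈ P ↔ _
      rw [← hPp, Ideal.mem_comap]
    obtain ⟨a, d, had⟩ := v.exists_primeCompl_mul_eq_of_integer w (hw v hv)
    exact d.2 (hJP ⟨a, had⟩)
  · obtain ⟨m, hm, hmp⟩ := SetLike.not_le_iff_exists.mp hJ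
    obtain ⟨a, ha⟩ := hm
    exact ⟨m, a, hmp, ha⟩

/-- integrality of the conjugates over the valuation ring of `p` -/
theorem conj_integral (p : HeightOneSpectrum (𝓞 Q)) (w : K)
    (hw : ∀ v : HeightOneSpectrum (𝓞 K), Ab p v → v.valuation K w ≤ 1)
    (σ : K →ₐ[Q] AlgebraicClosure Q) :
    IsIntegral (p.valuation Q).integer (σ w) := by
  obtain ⟨m, a, hm, ha⟩ := exists_den p w hw
  have hm1 : p.valuation Q (algebraMap (𝓞 Q) Q m) = 1 :=
    (HeightOneSpectrum.valuation_eq_one_iff_notMem _).mpr hm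
  have hm0 : algebraMap (𝓞 Q) Q m ≠ 0 := by
    intro h
    rw [h, map_zero] at hm1
    exact zero_ne_one hm1
  have hinv : (algebraMap (𝓞 Q) Q m)⁻¹ ∈ (p.valuation Q).integer := by
    rw [Valuation.mem_integer_iff, map_inv₀, hm1, inv_one]
  have hmK : algebraMap (𝓞 K) K (algebraMap (𝓞 Q) (𝓞 K) m) = algebraMap Q K (algebraMap (𝓞 Q) Q m) := by
    rfl
  have hw2 : σ w = algebraMap (p.valuation Q).integer (AlgebraicClosure Q)
      ⟨(algebraMap (𝓞 Q) Q m)⁻¹, hinv⟩ * σ (algebraMap (𝓞 K) K a) := by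
    change σ w = algebraMap Q (AlgebraicClosure Q) ((algebraMap (𝓞 Q) Q m)⁻¹) * _
    rw [← ha, map_mul, hmK, AlgHom.commutes, map_inv₀]
    have h3 : algebraMap Q (AlgebraicClosure Q) (algebraMap (𝓞 Q) Q m) ≠ 0 := by
      rw [Ne, map_eq_zero]
      exact hm0
    field_simp
  rw [hw2]
  refine IsIntegral.mul isIntegral_algebraMap ?_
  have h4 : IsIntegral ℤ (algebraMap (𝓞 K) K a) := a.2
  have h5 : IsIntegral ℤ (σ (algebraMap (𝓞 K) K a)) := h4.map (σ.restrictScalars ℤ)
  exact h5.tower_top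

/-- an element of `Q` integral over the valuation ring has valuation at most one -/
theorem val_le_of_integral (p : HeightOneSpectrum (𝓞 Q)) (x : Q)
    (hx : IsIntegral (p.valuation Q).integer (algebraMap Q (AlgebraicClosure Q) x)) :
    p.valuation Q x ≤ 1 := by
  have h1 : IsIntegral (p.valuation Q).integer x :=
    (isIntegral_algebraMap_iff (FaithfulSMul.algebraMap_injective Q (AlgebraicClosure Q))).mp hx
  exact (Valuation.integer.integers (p.valuation Q)).mem_of_integral h1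

/-- package N: (1) -/
theorem norm_le (p : HeightOneSpectrum (𝓞 Q)) (w : K)
    (hw : ∀ v : HeightOneSpectrum (𝓞 K), Ab p v → v.valuation K w ≤ 1) :
    p.valuation Q (Algebra.norm Q w) ≤ 1 := by
  apply val_le_of_integral
  rw [Algebra.norm_eq_prod_embeddings]
  exact IsIntegral.prod _ fun σ _ => conj_integral p w hw σ

/-- a product of factors near one is near one -/
theorem prod_near {A E ι : Type} [CommRing A] [CommRing E] [Algebra A E] (t : E)
    (ht : IsIntegral A t) (s : Finset ι) (a : ι → E) (ha : ∀ i, IsIntegral A (a i)) :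
    ∃ u : E, IsIntegral A u ∧ ∏ i ∈ s, (1 + t * a i) = 1 + t * u := by
  classical
  induction s using Finset.induction_on with
  | empty => exact ⟨0, isIntegral_zero, by simp⟩
  | insert i s hi ih =>
    obtain ⟨u, hu, hpu⟩ := ih
    refine ⟨u + a i + t * (a i * u), ?_, ?_⟩
    · exact (hu.add (ha i)).add (ht.mul ((ha i).mul hu))
    · rw [Finset.prod_insert hi, hpu]
      ring

/-- package N: (2) -/
theorem norm_near (p : HeightOneSpectrum (𝓞 Q)) (t : Q) (ht : p.valuation Q t ≤ 1) (w : K)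
    (hw : ∀ v : HeightOneSpectrum (𝓞 K), Ab p v → v.valuation K w ≤ 1) :
    ∃ w' : Q, p.valuation Q w' ≤ 1 ∧
      Algebra.norm Q (1 + algebraMap Q K t * w) = 1 + t * w' := by
  by_cases ht0 : t = 0
  · subst ht0
    exact ⟨0, by simp, by simp⟩
  have hti : IsIntegral (p.valuation Q).integer (algebraMap Q (AlgebraicClosure Q) t) := by
    have : algebraMap Q (AlgebraicClosure Q) t =
      algebraMap (p.valuation Q).integer (AlgebraicClosure Q) ⟨t, ht⟩ := rfl
    rw [this]
    exact isIntegral_algebraMap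
  obtain ⟨u, hu, hpu⟩ := prod_near (A := (p.valuation Q).integer)
    (algebraMap Q (AlgebraicClosure Q) t) hti Finset.univ
    (fun σ : K →ₐ[Q] AlgebraicClosure Q => σ w) (fun σ => conj_integral p w hw σ)
  have h1 : algebraMap Q (AlgebraicClosure Q) (Algebra.norm Q (1 + algebraMap Q K t * w)) =
      1 + algebraMap Q (AlgebraicClosure Q) t * u := by
    rw [Algebra.norm_eq_prod_embeddings, ← hpu]
    refine Finset.prod_congr rfl fun σ _ => ?_
    rw [map_add, map_one, map_mul, AlgHom.commutes]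
  have ht1 : algebraMap Q (AlgebraicClosure Q) t ≠ 0 := by
    rw [Ne, map_eq_zero]
    exact ht0
  have h2 : u = algebraMap Q (AlgebraicClosure Q)
      ((Algebra.norm Q (1 + algebraMap Q K t * w) - 1) / t) := by
    rw [map_div₀, map_sub, map_one, h1]
    field_simp
    ring
  refine ⟨(Algebra.norm Q (1 + algebraMap Q K t * w) - 1) / t, ?_, ?_⟩
  · apply val_le_of_integral
    rw [← h2]
    exact hu
  · field_simp
    ring

/-- package N: (3) -/
theorem ab_finite (p : HeightOneSpectrum (𝓞 Q)) :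
    {v : HeightOneSpectrum (𝓞 K) | Ab p v}.Finite := by
  obtain ⟨n, hn, hn0⟩ := Submodule.exists_mem_ne_zero_of_ne_bot p.ne_bot
  have hinj : Function.Injective (algebraMap (𝓞 Q) (𝓞 K)) :=
    FaithfulSMul.algebraMap_injective _ _
  have hI : Ideal.span {algebraMap (𝓞 Q) (𝓞 K) n} ≠ (0 : Ideal (𝓞 K)) := by
    intro h
    have : algebraMap (𝓞 Q) (𝓞 K) n = 0 := Ideal.span_singleton_eq_bot.mp h
    exact hn0 (hinj (by rw [this, map_zero]))
  refine (Ideal.finite_factors hI).subset ?_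
  intro v hv
  rw [Set.mem_ofPred_eq, Ideal.dvd_iff_le, Ideal.span_singleton_le_iff_mem]
  exact (hv n).mpr hn

/-- package N: (4) -/
theorem exists_below (v : HeightOneSpectrum (𝓞 K)) :
    ∃ p : HeightOneSpectrum (𝓞 Q), Ab p v ∧
      (∀ x : Q, p.valuation Q x ≤ 1 → v.valuation K (algebraMap Q K x) ≤ 1) ∧
      (∀ x : Q, p.valuation Q x < 1 → v.valuation K (algebraMap Q K x) < 1) := by
  have := v.isPrime
  have h0 : v.asIdeal.comap (algebraMap (𝓞 Q) (𝓞 K)) ≠ ⊥ := by
    intro h
    exact v.ne_bot (Ideal.IsIntegral.eq_bot_of_comap_eq_bot (R := 𝓞 Q) h)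
  let p : HeightOneSpectrum (𝓞 Q) :=
    ⟨v.asIdeal.comap (algebraMap (𝓞 Q) (𝓞 K)), Ideal.comap_isPrime _ _, h0⟩
  have hp : Ab p v := fun n => Iff.rfl
  have key : ∀ x : Q, p.valuation Q x ≤ 1 → ∃ (a : 𝓞 Q),
      p.valuation Q x = p.valuation Q (algebraMap (𝓞 Q) Q a) ∧
      v.valuation K (algebraMap Q K x) = v.valuation K (algebraMap (𝓞 K) K (algebraMap (𝓞 Q) (𝓞 K) a)) := by
    intro x hx
    obtain ⟨a, d, had⟩ := p.exists_primeCompl_mul_eq_of_integer x hx
    have hd1 : p.valuation Q (algebraMap (𝓞 Q) Q (d : 𝓞 Q)) = 1 :=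
      (HeightOneSpectrum.valuation_eq_one_iff_notMem _).mpr d.2
    have hd2 : v.valuation K (algebraMap (𝓞 K) K (algebraMap (𝓞 Q) (𝓞 K) (d : 𝓞 Q))) = 1 := by
      apply (HeightOneSpectrum.valuation_eq_one_iff_notMem _).mpr
      intro h
      exact d.2 ((hp d).mp h)
    refine ⟨a, ?_, ?_⟩
    · rw [← had, map_mul, hd1, mul_one]
    · have h3 : algebraMap Q K x * algebraMap (𝓞 K) K (algebraMap (𝓞 Q) (𝓞 K) (d : 𝓞 Q)) =
          algebraMap (𝓞 K) K (algebraMap (𝓞 Q) (𝓞 K) a) := by
        have := congrArg (algebraMap Q K) had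
        rw [map_mul] at this
        exact this
      rw [← h3, map_mul, hd2, mul_one]
  refine ⟨p, hp, ?_, ?_⟩
  · intro x hx
    obtain ⟨a, -, ha⟩ := key x hx
    rw [ha]
    exact v.valuation_le_one _
  · intro x hx
    obtain ⟨a, ha1, ha⟩ := key x hx.le
    rw [ha, HeightOneSpectrum.valuation_lt_one_iff_mem]
    rw [ha1, HeightOneSpectrum.valuation_lt_one_iff_mem] at hx
    exact (hp a).mpr hx

end Pool.Agent.Helper82.NA
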